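import Pool.Agent.W189.LC.Rat

/-!
# The leading coefficient of `L(E, s)` at `s = 1` from point counts

Let `E` be an elliptic curve over `ℚ`, given by an integral Weierstrass equation `W` with `Δ ≠ 0` (for
the global minimal equation the function `F` below is the Hasse-Weil `L`-function of `E`). Write
`α_p^k + β_p^k` for the power sums of the roots of `X² - a_p X + p` (good primes; by Weil's
theorem this is `p^k + 1 - #E(𝔽_{p^k})`), and `a_p^k` for `p ∣ Δ`. For `T > 0` put

`S(T) = ∑_{p, k ≥ 1} -(α_p^k + β_p^k) / (k p^k Γ(1 + k log p / T))`,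

so for good `p` the numerator is `#E(𝔽_q) - q - 1`, `q = p^k`. The series converges absolutely, with
no hypothesis, since `1/Γ` decays faster than exponentially. It is a smooth version of the
logarithm of the products `∏_{p ≤ X} N_p/p`, `T = log X`, from which the conjecture of Birch and
Swinnerton-Dyer arose. With the sharp cut-off the product is much deeper than the conjecture (it implies
the Riemann hypothesis for `L(E, s)` and more, Goldfeld 1982). For the smooth version
the following is proved, where `κ = ∫_0^∞ (e^{-t} - 1/Γ(1+t)) dt/t` and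
`g(y) = ∫_0^∞ (e^{yu} - 1) du/(u Γ(1+u))`.

* If `L(E, s)` has no real zero `> 1`, then, with `m` the order and `λ` the leading Taylor coefficient
  of `L(E, s)` at `s = 1`, `λ > 0` and `S(T) = m (log T - κ) - log λ + O(1/T)`.
* If there are real zeros `> 1`, `β` the largest one and `m` its multiplicity, then
  `S(T) ∼ m g((β - 1) T)`, which is larger than `exp(exp(yT))` for every `y < β - 1`.
* For every real `B > 0`: `S(T) - rank E(ℚ) log T` tends to `- rank E(ℚ) κ - log B` if and only if
  `L(E, s)` has no real zero `> 1`, its order at `1` is the rank of `E(ℚ)`, and its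
  leading Taylor coefficient is `B`. In particular, for `B = Ω Reg |Sha| ∏ c_p / |tors|²` the strong Birch
  and Swinnerton-Dyer formula, for curves without real zeros `> 1`, is exactly this
  asymptotic formula for the numbers of points.
-/

set_option autoImplicit false

namespace Pool.Agent.Results.MP_4a9ea6_nt.MittagLefflerLeadingCoefficient

open Filter Topology Pool.Agent.W189.LC Pool.Agent.W189.ML

/-- the rank of the group of rational points -/
noncomputable def rank (W : WeierstrassCurve ℤ) : ℕ :=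
  Module.finrank ℤ (WeierstrassCurve.Affine.Point
    (WeierstrassCurve.toAffine (W.map (Int.castRingHom ℚ))))

/-- **The leading coefficient as a limit of smoothed sums over point counts.** -/
theorem result (W : WeierstrassCurve ℤ) (_hΔ : W.Δ ≠ 0) (F : ℂ → ℂ) (hF : IsLFunction W F) :
    (∀ T : ℝ, 0 < T → Summable fun x : Nat.Primes × ℕ => |bsTerm W T x|) ∧
    ((∀ σ : ℝ, 1 < σ → F σ ≠ 0) → ∃ (m : ℕ) (l : ℝ), analyticOrderAt F 1 = m ∧
      iteratedDeriv m F 1 / (m.factorial : ℂ) = l ∧ 0 < l ∧
      (fun T : ℝ => bsSum W T - (m * (Real.log T - kap) - Real.log l)) =O[atTop]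
        fun T : ℝ => 1 / T) ∧
    ((∃ σ : ℝ, 1 < σ ∧ F σ = 0) → ∃ (β : ℝ) (m : ℕ), 1 < β ∧ F β = 0 ∧
      (∀ σ : ℝ, β < σ → F σ ≠ 0) ∧ analyticOrderAt F β = m ∧
      Tendsto (fun T : ℝ => bsSum W T / grow ((β - 1) * T)) atTop (𝓝 m) ∧
      ∀ y < β - 1, ∀ᶠ T : ℝ in atTop, Real.exp (Real.exp (y * T)) ≤ bsSum W T) ∧
    ∀ B : ℝ, 0 < B →
      (((∀ σ : ℝ, 1 < σ → F σ ≠ 0) ∧ analyticOrderAt F 1 = rank W ∧
        iteratedDeriv (rank W) F 1 / ((rank W).factorial : ℂ) = B) ↔
      Tendsto (fun T : ℝ => bsSum W T - rank W * Real.log T) atTop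
        (𝓝 (-(rank W * kap) - Real.log B))) := by
  have E := ratEP W
  refine ⟨fun T hT => bsTerm_summable W hT, ?_, ?_, ?_⟩
  · intro hz
    have htop := E.order_ne_top hF.mero hF.prod (x := 1) ⟨le_rfl, by norm_num⟩
    rw [Complex.ofReal_one] at htop
    have han := hF.1.analyticAt 1
    obtain ⟨m, hm⟩ : ∃ m : ℕ, analyticOrderAt F 1 = m := by
      cases h : analyticOrderAt F 1 with
      | top =>
        exfalso
        apply htop
        rw [han.meromorphicOrderAt_eq, h]
        rfl
      | coe n => exact ⟨n, rfl⟩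
    have hm' := (order_nat_iff hF.1 1 m).2 hm
    obtain ⟨h1, h2, C, T₀, hC, hT₀, h3⟩ := E.regular hF.mero hF.prod hm'
      (fun σ hσ => (order_zero_iff hF.1 σ).2 (hz σ hσ.1))
    have h4 := coeff_eq hF.1 hm
    refine ⟨m, (meromorphicTrailingCoeffAt F 1).re, hm, ?_, h2, ?_⟩
    · rw [← h4]
      apply Complex.ext
      · simp
      · simpa using h1
    · refine Asymptotics.IsBigO.of_bound C ?_
      filter_upwards [eventually_ge_atTop T₀] with T hT
      have hT1 : 0 < T := by linarith
      have h5 := h3 T hT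
      rw [bsSum_eq, Real.norm_eq_abs, Real.norm_eq_abs, abs_of_pos (by positivity : 0 < 1 / T),
        mul_one_div]
      refine le_trans (le_of_eq ?_) h5
      rw [← abs_neg]
      congr 1
      push_cast
      ring
  · rintro ⟨σ₀, hσ₀, hσz⟩
    have hz : ¬ ∀ σ ∈ Set.Ioc (1 : ℝ) 2, meromorphicOrderAt F (σ : ℂ) = 0 := by
      intro h
      have h2 : meromorphicOrderAt F (σ₀ : ℂ) = 0 := by
        by_cases hc : σ₀ ≤ 2
        · exact h σ₀ ⟨hσ₀, hc⟩
        · push Not at hc
          exact E.order_right hF.mero hF.prod hc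
      exact (order_zero_iff hF.1 _).1 h2 hσz
    obtain ⟨β, m, h1, h2, hm0, hm, h3, h4, h5⟩ := E.singular hF.mero hF.prod hz
    have han := hF.1.analyticAt (β : ℂ)
    have hnn : 0 ≤ m := by
      have := han.meromorphicOrderAt_nonneg
      rw [hm] at this
      exact_mod_cast this
    obtain ⟨n, rfl⟩ := Int.eq_ofNat_of_zero_le hnn
    have hn0 : n ≠ 0 := by
      rintro rfl
      exact hm0 rfl
    have hord : analyticOrderAt F β = n := (order_nat_iff hF.1 β n).1 hm
    have hFβ : F β = 0 := by
      by_contra hne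
      have h6 := (order_zero_iff hF.1 (β : ℂ)).2 hne
      rw [hm] at h6
      exact hm0 (by exact_mod_cast h6)
    have h4' : Tendsto (fun T : ℝ => bsSum W T / grow ((β - 1) * T)) atTop (𝓝 n) := by
      have h7 := h4.neg
      have h8 : (fun T : ℝ => -(sm (fun p : Nat.Primes => ((p : ℕ) : ℝ))
          (fun p => ((aP W p : ℤ) : ℝ)) (fun p => ((eP W p : ℤ) : ℝ)) T / grow ((β - 1) * T))) =
          fun T => bsSum W T / grow ((β - 1) * T) := by
        funext T
        rw [bsSum_eq, neg_div]
      rw [h8] at h7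
      simpa using h7
    refine ⟨β, n, h1, hFβ, fun σ hσ => (order_zero_iff hF.1 _).1 (h3 σ hσ), hord, h4', ?_⟩
    intro y hy
    have hnpos : (0 : ℝ) < n := by
      have : 0 < n := Nat.pos_of_ne_zero hn0
      exact_mod_cast this
    filter_upwards [h5 y hy, h4'.eventually (lt_mem_nhds hnpos), eventually_gt_atTop (0 : ℝ)]
      with T h6 h7 h8
    have h9 : 0 ≤ grow ((β - 1) * T) := grow_nonneg (mul_nonneg (by linarith) h8.le)
    have h10 : 0 < bsSum W T := by
      by_contra hneg
      push Not at hneg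
      have := div_nonpos_of_nonpos_of_nonneg hneg h9
      linarith
    have h11 : |sm (fun p : Nat.Primes => ((p : ℕ) : ℝ))
          (fun p => ((aP W p : ℤ) : ℝ)) (fun p => ((eP W p : ℤ) : ℝ)) T| = bsSum W T := by
      rw [← abs_of_pos h10, bsSum_eq, abs_neg]
    rw [h11] at h6
    exact h6
  · intro B hB
    generalize rank W = r
    have h1 := E.iff hF.mero hF.prod (r : ℤ) hB
    have h2 : (∀ σ : ℝ, 1 < σ → meromorphicOrderAt F (σ : ℂ) = 0) ↔
        ∀ σ : ℝ, 1 < σ → F σ ≠ 0 :=
      forall_congr' fun σ => imp_congr_right fun _ => order_zero_iff hF.1 _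
    have h3 : (((∀ σ : ℝ, 1 < σ → F σ ≠ 0) ∧ analyticOrderAt F 1 = r ∧
        iteratedDeriv r F 1 / (r.factorial : ℂ) = B)) ↔
        ((∀ σ : ℝ, 1 < σ → meromorphicOrderAt F (σ : ℂ) = 0) ∧
          meromorphicOrderAt F 1 = (r : ℤ) ∧ meromorphicTrailingCoeffAt F 1 = B) := by
      constructor
      · rintro ⟨e1, e2, e3⟩
        exact ⟨h2.2 e1, (order_nat_iff hF.1 1 r).2 e2, by rw [coeff_eq hF.1 e2, e3]⟩
      · rintro ⟨e1, e2, e3⟩
        have e4 := (order_nat_iff hF.1 1 r).1 e2
        exact ⟨h2.1 e1, e4, by rw [← coeff_eq hF.1 e4, e3]⟩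
    rw [h3, h1]
    have h4 : (fun T : ℝ => bsSum W T - r * Real.log T) = fun T =>
        -(sm (fun p : Nat.Primes => ((p : ℕ) : ℝ)) (fun p => ((aP W p : ℤ) : ℝ))
          (fun p => ((eP W p : ℤ) : ℝ)) T + ((r : ℤ) : ℝ) * Real.log T) := by
      funext T
      rw [bsSum_eq]
      push_cast
      ring
    rw [h4]
    constructor
    · intro h
      have h5 := h.neg
      refine h5.congr' (Eventually.of_forall fun T => rfl) |>.trans (le_of_eq ?_)
      congr 1
      push_cast
      ring
    · intro h
      have h5 := h.neg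
      simp only [neg_neg] at h5
      refine h5.trans (le_of_eq ?_)
      congr 1
      push_cast
      ring

end Pool.Agent.Results.MP_4a9ea6_nt.MittagLefflerLeadingCoefficient
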