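import Pool.Agent.W186.GT.Herm

set_option autoImplicit false

/-!
# MP_4a9ea6_nt: rank and leading coefficient from averages of the newform

Let `E` be an elliptic curve over the rational numbers, `a n` the coefficients of its L-series,
`f(y) = Σ a n exp (-2 π n y / √N)` the newform of `E` at the point `i y / √N` of the imaginary axis and
`A τ` the average of `u ↦ exp u * f (exp u)` against a Gaussian of variance `τ`. Then, as `τ` tends to
infinity, `τ ^ ((r + 1) / 2) * A τ (√τ v)` tends to `√N / (2 π)^(3/2) * c * He_r(v) * exp (-v² / 2)`,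
where `r` is the order of `L(E,s)` at `s = 1`, `c` its leading coefficient there and `He_r` the Hermite
polynomial; and conversely such a limit with a constant `B ≠ 0` and an index `k` forces `r = k` and
`c = B`. So parts (i) and (iii) of the conjecture for `E` say that the averages of the newform have the
shape of the Hermite function whose index is the rank and whose size is the product of the arithmetic invariants.
-/

namespace Pool.Agent.Results.MP_4a9ea6_nt.NewformHermiteShape

open MeasureTheory Filter Topology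

/-- The coefficients of the L-series of `E`. -/
noncomputable def coeff (E : WeierstrassCurve ℚ) (n : ℕ) : ℝ := (E.LFunction n : ℝ)

/-- `f(y) = Σ a n exp (-2 π n y / √N)`. -/
noncomputable def form (E : WeierstrassCurve ℚ) (N y : ℝ) : ℝ :=
  ∑' n : ℕ, coeff E n * Real.exp (-(2 * Real.pi * n * y / Real.sqrt N))

/-- `f(1/y) = w y² f(y)`, with `a 1 = 1` and polynomial growth of `a n`. By the modularity theorem
this holds for every `E`, with `N` the conductor and `w` the root number. -/
def ModularWith (E : WeierstrassCurve ℚ) (N w : ℝ) : Prop :=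
  0 < N ∧ (w = 1 ∨ w = -1) ∧ coeff E 1 = 1 ∧ (∃ C A : ℝ, ∀ n : ℕ, |coeff E n| ≤ C * (n : ℝ) ^ A) ∧
    ∀ y : ℝ, 0 < y → form E N (1 / y) = w * y ^ 2 * form E N y

/-- The average of `v ↦ exp v * f (exp v)` against the Gaussian of mean `u` and variance `τ`. -/
noncomputable def average (E : WeierstrassCurve ℚ) (N τ u : ℝ) : ℝ :=
  (∫ v, Real.exp v * form E N (Real.exp v) * Real.exp (-(u - v) ^ 2 / (2 * τ))) / Real.sqrt (2 * Real.pi * τ)

/-- `L` is the L-function of `E`: entire, and equal to the L-series for large real part. -/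
def IsLFunction (E : WeierstrassCurve ℚ) (L : ℂ → ℂ) : Prop :=
  Differentiable ℂ L ∧ ∃ σ : ℝ, ∀ s : ℂ, σ < s.re → L s = E.LSeries s

/-- `L` vanishes to order `k` at `s = 1` with leading Taylor coefficient `B` there (for `B ≠ 0`). -/
def HasLeading (L : ℂ → ℂ) (k : ℕ) (B : ℝ) : Prop :=
  (∀ i < k, iteratedDeriv i L 1 = 0) ∧ iteratedDeriv k L 1 / (k.factorial : ℂ) = B

/-- The Hermite function of index `k` (probabilists' normalisation, times the normal density). -/
noncomputable def hermiteFun (k : ℕ) (v : ℝ) : ℝ :=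
  Polynomial.aeval v (Polynomial.hermite k) * Real.exp (-(v ^ 2 / 2)) / Real.sqrt (2 * Real.pi)

/-- The averages have the shape of the Hermite function of index `k` with constant `B`. -/
def HermiteShape (E : WeierstrassCurve ℚ) (N : ℝ) (k : ℕ) (B : ℝ) : Prop :=
  ∀ v : ℝ, Tendsto (fun τ : ℝ => τ ^ (((k : ℝ) + 1) / 2) * average E N τ (Real.sqrt τ * v)) atTop
    (𝓝 (Real.sqrt N / (2 * Real.pi) * B * hermiteFun k v))

theorem result (E : WeierstrassCurve ℚ) [E.IsElliptic] (N w : ℝ) (hE : ModularWith E N w) (L : ℂ → ℂ)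
    (hL : IsLFunction E L) :
    (∀ (k : ℕ) (B : ℝ), B ≠ 0 → (HasLeading L k B ↔ HermiteShape E N k B)) ∧
    (∃ (r : ℕ) (c : ℝ), c ≠ 0 ∧ HasLeading L r c ∧ HermiteShape E N r c) ∧
    (∀ B : ℝ, B ≠ 0 → (HasLeading L (Module.finrank ℤ E.toAffine.Point) B ↔
      HermiteShape E N (Module.finrank ℤ E.toAffine.Point) B)) := by
  obtain ⟨hN, hw, h1, hgr, hsym⟩ := hE
  obtain ⟨hLd, σ1, hLs⟩ := hL
  have hmod : Pool.Agent.W186.GT.Mod (coeff E) N w := by
    refine ⟨hN, hw, ?_, h1, hgr, hsym⟩
    unfold coeff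
    simp
  have hLa : ∃ σ1 : ℝ, ∀ s : ℂ, σ1 < s.re → L s = ∑' n : ℕ, (coeff E n : ℂ) / (n : ℂ) ^ s := by
    refine ⟨σ1, fun s hs => ?_⟩
    rw [hLs s hs]
    unfold WeierstrassCurve.LSeries LSeries
    refine tsum_congr fun n => ?_
    unfold coeff
    rcases Nat.eq_zero_or_pos n with h0 | h0
    · rw [h0]; simp
    · rw [LSeries.term_of_ne_zero h0.ne']
      simp
  have hlead : ∀ (k : ℕ) (B : ℝ), HasLeading L k B ↔
      (∀ i < k, iteratedDeriv i L 1 = 0) ∧ iteratedDeriv k L 1 = (k.factorial : ℂ) * B := by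
    intro k B
    have hf : (k.factorial : ℂ) ≠ 0 := by exact_mod_cast (Nat.factorial_pos k).ne'
    unfold HasLeading
    rw [div_eq_iff hf, mul_comm (k.factorial : ℂ)]
  have key : ∀ (k : ℕ) (B : ℝ), B ≠ 0 → (HasLeading L k B ↔ HermiteShape E N k B) := by
    intro k B hB
    rw [hlead]
    exact Pool.Agent.W186.GT.herm_iff (coeff E) N w hmod L hLd hLa k B hB
  refine ⟨key, ?_, fun B hB => key _ B hB⟩
  obtain ⟨r, c, hc, h2, h3⟩ := Pool.Agent.W186.GT.lead_ex (coeff E) N w hmod L hLd hLa
  have h4 : HasLeading L r c := (hlead r c).2 ⟨h2, h3⟩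
  exact ⟨r, c, hc, h4, (key r c hc).1 h4⟩

end Pool.Agent.Results.MP_4a9ea6_nt.NewformHermiteShape
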