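import Mathlib
import Pool.Agent.W262.SH.Def
import Pool.Agent.W262.SQ.Fam

/-!
# All moments of `2 ^ rank * #Ш[2]` in families of quadratic twists, in short intervals

Let `D(t) = b * ∏_{i < m} P_i(t)`, the `P_i` polynomials with integer coefficients of degree one or
two, irreducible over `ℚ` and pairwise not proportional, and let `A`, `B` be different nonzero
integers. For the quadratic twists `E_t : y² = x (x - A D(t)) (x - B D(t))` of the curve
`y² = x (x - A) (x - B)` by `D(t)` the average over the integers `t` of an interval `(N, N + M]`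
with `|N| ≤ M ^ L` of `(2 ^ rank E_t(ℚ) * #Ш(E_t/ℚ)[2]) ^ e` is bounded, for every `e` and `L`.
-/

namespace Pool.Agent.Results.MP_4a9ea6_nt.TwistMoments

open Finset Polynomial

open Pool.Agent.W262.SH (E Sha2)

/-- `D(t) = b * ∏ i, P i (t)` -/
def D {m : ℕ} (b : ℤ) (P : Fin m → ℤ[X]) (t : ℤ) : ℤ := b * ∏ i, (P i).eval t

theorem D_eq {m : ℕ} (b : ℤ) (P : Fin m → ℤ[X]) (t : ℤ) (i : Fin 1) :
    Pool.Agent.W262.SQ.Dp (fun _ : Fin 1 => b) (fun _ : Fin m => 0) P t i = D b P t := by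
  unfold Pool.Agent.W262.SQ.Dp D
  rw [Finset.filter_true_of_mem fun _ _ => Subsingleton.elim _ _]

/-- All moments of `2 ^ rank E_t(ℚ) * #Ш(E_t/ℚ)[2]` in short intervals are bounded. -/
theorem result (m : ℕ) (A B b : ℤ) (P : Fin m → ℤ[X]) (hA : A ≠ 0) (hB : B ≠ 0) (hAB : A ≠ B)
    (hb : b ≠ 0) (hdeg : ∀ i, (P i).natDegree = 1 ∨ (P i).natDegree = 2)
    (hirr : ∀ i, Irreducible ((P i).map (Int.castRingHom ℚ)))
    (hne : ∀ i j, i ≠ j →
      ¬ Associated ((P i).map (Int.castRingHom ℚ)) ((P j).map (Int.castRingHom ℚ))) :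
    (∀ t : ℤ, D b P t ≠ 0 → Finite (Sha2 (E (D b P t * A) (D b P t * B)))) ∧
    ∀ e L : ℕ, ∃ C : ℝ, ∀ (N : ℤ) (M : ℕ), 1 ≤ M → |N| ≤ (M : ℤ) ^ L →
      ∑ t ∈ (Ioc N (N + M)).filter (fun t => D b P t ≠ 0),
        ((2 : ℝ) ^ Module.finrank ℤ (E (D b P t * A) (D b P t * B)).toAffine.Point *
          Nat.card (Sha2 (E (D b P t * A) (D b P t * B)))) ^ e ≤ C * M := by
  have hp := Pool.Agent.W262.SH.parts
  classical
  simp only [Pool.Agent.W262.SH.sha2_eq]
  refine ⟨fun t ht => ?_, fun e L => ?_⟩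
  · exact Pool.Agent.W262.SH.fin_sha hp.desc hp.sh1 hp.sh2 (mul_ne_zero ht hA)
      (mul_ne_zero ht hB) (fun h => hAB (mul_left_cancel₀ ht h))
  obtain ⟨C, -, hC⟩ := Pool.Agent.W262.SQ.sA (max e 1) (le_max_right _ _) A B (fun _ : Fin 1 => b)
    (fun _ : Fin m => 0) P ⟨hdeg, hirr, hne⟩ hA hB hAB (fun _ => hb) L
  refine ⟨C, fun N M hM hN => le_trans ?_ (hC (N, M) ⟨hM, hN⟩ {0})⟩
  simp only [D_eq, forall_const, prod_singleton]
  refine sum_le_sum fun t ht => ?_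
  have ht' := (mem_filter.1 ht).2
  exact pow_le_pow_right₀ (Pool.Agent.W262.SQ.one_le_wt (mul_ne_zero ht' hA) (mul_ne_zero ht' hB)
    (fun h => hAB (mul_left_cancel₀ ht' h))) (le_max_left e 1)

end Pool.Agent.Results.MP_4a9ea6_nt.TwistMoments
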