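import Pool.Agent.W76.BK.RatR

/-!
# An unconditional numerical form of the strong Birch and Swinnerton-Dyer conjecture

Let `E` be an elliptic curve over `ℚ`, given by an integral Weierstrass equation `W` with `Δ ≠ 0` (for
the global minimal equation the function `F` below is the Hasse-Weil `L`-function of `E`). Write
`α_p^k + β_p^k` for the power sums of the roots of `X² - a_p X + p` (good primes; by Weil's
theorem this is `p^k + 1 - #E(𝔽_{p^k})`), and `a_p^k` for `p ∣ Δ`. For `T > 0` put

`S(T) = ∑_{p, k ≥ 1} -(α_p^k + β_p^k) / (k p^k Γ(1 + (1 + i/√T) k log p / T))`,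

so for good `p` the numerator is `#E(𝔽_q) - q - 1`, `q = p^k`. The series converges absolutely, with
no hypothesis, and its weights tend to `1` as `T → ∞`: `exp(S(T))` is a smooth version
of the products `∏_{p ≤ X} #E(𝔽_p)/p`, `T = log X`, from which the conjecture of Birch and
Swinnerton-Dyer arose. With the sharp cut-off the asymptotics of the product imply the Riemann
hypothesis for `L(E, s)` and more (Goldfeld 1982); with the real weights `1/Γ(1 + v)` they are equivalent
to the conjecture only for curves without real zeros `> 1` (such a zero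
makes the sum larger than `exp(exp(yT))`), and no method is known to exclude these.

The complex weights repair this. For EVERY elliptic curve over `ℚ`, with `m` the order and `λ` the
leading Taylor coefficient of `L(E, s)` at `s = 1`, and `κ = ∫_0^∞ (e^{-t} - 1/Γ(1+t)) dt/t`:

* `exp(S(T)) / (e^{-κ} T)^m → 1/λ`; more precisely
  `S(T) - m (log T - κ) → - log |λ| - iπ n`, where `n` is the number of real zeros of `L(E, s)` to the
  right of `1`, counted with multiplicity;
* so for every real `B ≠ 0`: `L(E, s)` has order `rank E(ℚ)` and leading coefficient `B` at `s = 1` IF AND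
  ONLY IF `exp(S(T)) / (e^{-κ} T)^{rank E(ℚ)} → 1/B`.

With `B = Ω Reg |Sha| ∏ c_p / |tors|²` this says that (i) and (iii) of the strong conjecture hold for `E` if
and only if the numbers of points of `E` over the finite fields satisfy an explicit
asymptotic law, without any assumption on the zeros of `L(E, s)`.

Idea: `1/Γ(1 + κ v) = (2πi)⁻¹ ∫ exp(e^z) e^{-κ z v} dz` along the boundary of a half strip
`Re z ≥ a, |Im z| ≤ π`, so `S(T)` is the integral of `-exp(e^z) log L(E, 1 + (1 + i/√T) z/T)`. The strip
is rotated by the angle `1/√T` about the point `1`; it becomes so thin that for large `T` it passes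
above all real zeros, at which `log L` picks up `-iπ` each, and below all others.
-/

set_option autoImplicit false

namespace Pool.Agent.Results.MP_4a9ea6_nt.UnconditionalNumericalForm

open Filter Topology Pool.Agent.W189.LC Pool.Agent.W76.BK.Rat

/-- the rank of the group of rational points -/
noncomputable def rank (W : WeierstrassCurve ℤ) : ℕ :=
  Module.finrank ℤ (WeierstrassCurve.Affine.Point
    (WeierstrassCurve.toAffine (W.map (Int.castRingHom ℚ))))

/-- **Strong BSD over `ℚ` as an asymptotic law for point counts, for every curve.** -/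
theorem result (W : WeierstrassCurve ℤ) (_hΔ : W.Δ ≠ 0) (F : ℂ → ℂ) (hF : IsLFunction W F) :
    (∀ T : ℝ, 0 < T → Summable fun x : Nat.Primes × ℕ => ‖rotTerm W T x‖) ∧
    (∃ (m : ℕ) (l : ℝ) (Z : Finset ℝ), analyticOrderAt F 1 = m ∧
      iteratedDeriv m F 1 / (m.factorial : ℂ) = l ∧ l ≠ 0 ∧
      (∀ σ : ℝ, σ ∈ Z ↔ 1 < σ ∧ F σ = 0) ∧
      Tendsto (fun T : ℝ => rotSum W T - m * (Real.log T - kap)) atTop
        (𝓝 (-(Real.log |l| : ℝ) -
          (∑ σ ∈ Z, (analyticOrderNatAt F (σ : ℂ) : ℂ)) * Real.pi * Complex.I)) ∧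
      Tendsto (fun T : ℝ => Complex.exp (rotSum W T) / ((Real.exp (-kap) * T : ℝ) : ℂ) ^ m) atTop
        (𝓝 ((l : ℂ))⁻¹)) ∧
    ∀ B : ℝ, B ≠ 0 →
      ((analyticOrderAt F 1 = rank W ∧
        iteratedDeriv (rank W) F 1 / ((rank W).factorial : ℂ) = B) ↔
      Tendsto (fun T : ℝ => Complex.exp (rotSum W T) /
        ((Real.exp (-kap) * T : ℝ) : ℂ) ^ (rank W)) atTop (𝓝 ((B : ℂ))⁻¹)) := by
  obtain ⟨m, l, Z, h1, h2, h3, h4, h5, h6, h7⟩ := rat_main hF
  exact ⟨fun T hT => rotTerm_summable W hT, ⟨m, l, Z, h1, h2, h3, h4, h5, h6⟩,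
    fun B hB => h7 (rank W) B hB⟩

end Pool.Agent.Results.MP_4a9ea6_nt.UnconditionalNumericalForm
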